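import Pool.Agent.N805.JG.Stm

/-!
JG/DEV (project JG of helper805): exponential tail for the number of points in an arc. By helper106.
-/

set_option autoImplicit false

open MeasureTheory Filter Topology

namespace Pool.Agent.N106.JG

open Pool.Agent.N805.JG

/-! ### the arc -/

/-- the arc of the points with `fract (x - a) < h` -/
def arc (a h : ℝ) : Set ℝ := {t : ℝ | t ∈ Set.Ico (0 : ℝ) 1 ∧ Int.fract (t - a) < h}

theorem arc_measurable (a h : ℝ) : MeasurableSet (arc a h) := by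
  have h1 : Measurable fun t : ℝ => Int.fract (t - a) :=
    measurable_fract.comp (measurable_id.sub_const a)
  exact measurableSet_Ico.inter (measurableSet_lt h1 measurable_const)

theorem arc_eq (a h : ℝ) (h1 : h ≤ 1) :
    arc a h = Set.Ico (Int.fract a) (min 1 (Int.fract a + h)) ∪ Set.Ico 0 (Int.fract a + h - 1) := by
  have hb0 := Int.fract_nonneg a
  have hb1 := Int.fract_lt_one a
  set b := Int.fract a with hb
  have hfr : ∀ t : ℝ, Int.fract (t - a) = Int.fract (t - b) := by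
    intro t
    have h2 : t - a = t - b - (⌊a⌋ : ℤ) := by
      rw [hb, Int.fract]
      ring
    rw [h2, Int.fract_sub_intCast]
  ext t
  constructor
  · rintro ⟨⟨ht0, ht1⟩, ht2⟩
    rw [hfr] at ht2
    by_cases hbt : b ≤ t
    · have h3 : Int.fract (t - b) = t - b := Int.fract_eq_self.2 ⟨by linarith, by linarith⟩
      rw [h3] at ht2
      exact Or.inl ⟨hbt, lt_min ht1 (by linarith)⟩
    · push Not at hbt
      have h3 : Int.fract (t - b) = t - b + 1 := by
        rw [← Int.fract_add_one]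
        exact Int.fract_eq_self.2 ⟨by linarith, by linarith⟩
      rw [h3] at ht2
      exact Or.inr ⟨ht0, by linarith⟩
  · rintro (⟨h2, h3⟩ | ⟨h2, h3⟩)
    · have h4 := lt_min_iff.1 h3
      refine ⟨⟨hb0.trans h2, h4.1⟩, ?_⟩
      rw [hfr]
      have h5 : Int.fract (t - b) = t - b := Int.fract_eq_self.2 ⟨by linarith, by linarith [h4.1]⟩
      rw [h5]
      linarith [h4.2]
    · refine ⟨⟨h2, by linarith⟩, ?_⟩
      rw [hfr]
      have h5 : Int.fract (t - b) = t - b + 1 := by
        rw [← Int.fract_add_one]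
        exact Int.fract_eq_self.2 ⟨by linarith, by linarith⟩
      rw [h5]
      linarith

theorem arc_vol (a h : ℝ) (h0 : 0 ≤ h) (h1 : h ≤ 1) : volume.real (arc a h) = h := by
  have hb0 := Int.fract_nonneg a
  have hb1 := Int.fract_lt_one a
  rw [arc_eq a h h1]
  set b := Int.fract a with hb
  have hdis : Disjoint (Set.Ico b (min 1 (b + h))) (Set.Ico 0 (b + h - 1)) := by
    rw [Set.disjoint_left]
    rintro t ⟨h2, -⟩ ⟨-, h3⟩
    linarith
  rw [measureReal_union hdis measurableSet_Ico (by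
    rw [Real.volume_Ico]; exact ENNReal.ofReal_ne_top) (by
    rw [Real.volume_Ico]; exact ENNReal.ofReal_ne_top), Real.volume_real_Ico, Real.volume_real_Ico]
  rcases le_total 1 (b + h) with h2 | h2
  · rw [min_eq_left h2, max_eq_left (by linarith), max_eq_left (by linarith)]
    ring
  · rw [min_eq_right h2, max_eq_left (by linarith), max_eq_right (by linarith)]
    ring

theorem cnt_eq_num {M : ℕ} (hM : 1 ≤ M) (θ : Fin M → ℝ) (hθ : ∀ i, θ i ∈ Set.Ico (0 : ℝ) 1) (t u : ℝ) :
    cnt θ t u = num θ (arc (t / M) (u / M)) := by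
  classical
  have hM0 : (0 : ℝ) < M := by exact_mod_cast hM
  unfold cnt num
  have h1 : ∀ i, (Int.fract (θ i - t / M) * M < u) ↔ θ i ∈ arc (t / M) (u / M) := by
    intro i
    rw [← lt_div_iff₀ hM0]
    exact ⟨fun h => ⟨hθ i, h⟩, fun h => h.2⟩
  rw [Finset.filter_congr fun i _ => h1 i]

theorem cue_ae (M : ℕ) : ∀ᵐ θ ∂(cue M), ∀ i, θ i ∈ Set.Ico (0 : ℝ) 1 := by
  have h1 : ∀ᵐ θ ∂((volume : Measure (Fin M → ℝ)).restrict (Set.univ.pi fun _ => Set.Ico (0 : ℝ) 1)),
      ∀ i, θ i ∈ Set.Ico (0 : ℝ) 1 := by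
    have h2 : MeasurableSet (Set.univ.pi fun _ : Fin M => Set.Ico (0 : ℝ) 1) :=
      MeasurableSet.univ_pi fun _ => measurableSet_Ico
    filter_upwards [ae_restrict_mem h2] with θ hθ i
    exact hθ i (Set.mem_univ i)
  exact (withDensity_absolutelyContinuous _ _).ae_le h1

/-! ### elementary inequalities -/

theorem exp_le_quad {x : ℝ} (hx : |x| ≤ 1) : Real.exp x ≤ 1 + x + x ^ 2 := by
  have h1 := Real.abs_exp_sub_one_sub_id_le hx
  have h2 := abs_le.1 h1
  linarith [h2.2]

theorem lam_up {l : ℝ} (h0 : 0 ≤ l) (h1 : l ≤ 1) :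
    1 + (Real.exp 1 - 1) * l ≤ Real.exp (l + l * (1 - l)) := by
  have e1 : Real.exp (1 - l) ≤ 1 + (1 - l) + (1 - l) ^ 2 :=
    exp_le_quad (abs_le.2 ⟨by linarith, by linarith⟩)
  have e2 : Real.exp (-l) ≤ 1 + (-l) + (-l) ^ 2 := exp_le_quad (abs_le.2 ⟨by linarith, by linarith⟩)
  have e3 : l * (1 - l) + 1 ≤ Real.exp (l * (1 - l)) := Real.add_one_le_exp _
  have hpos := Real.exp_pos l
  have k1 : Real.exp 1 = Real.exp l * Real.exp (1 - l) := by rw [← Real.exp_add]; congr 1; ring
  have k2 : (1 : ℝ) = Real.exp l * Real.exp (-l) := by rw [← Real.exp_add, add_neg_cancel, Real.exp_zero]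
  have k3 : 1 + (Real.exp 1 - 1) * l =
      Real.exp l * (l * Real.exp (1 - l) + (1 - l) * Real.exp (-l)) := by
    have h3 : Real.exp l * (l * Real.exp (1 - l) + (1 - l) * Real.exp (-l)) =
        (Real.exp l * Real.exp (1 - l)) * l + (Real.exp l * Real.exp (-l)) * (1 - l) := by ring
    rw [h3, ← k1, ← k2]
    ring
  rw [k3, Real.exp_add]
  refine mul_le_mul_of_nonneg_left ?_ hpos.le
  have s1 := mul_le_mul_of_nonneg_left e1 h0
  have s2 := mul_le_mul_of_nonneg_left e2 (sub_nonneg.2 h1)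
  nlinarith [s1, s2, e3]

theorem lam_dn {l : ℝ} (h0 : 0 ≤ l) (h1 : l ≤ 1) :
    1 + (Real.exp (-1) - 1) * l ≤ Real.exp (-l + l * (1 - l)) := by
  have e1 : Real.exp (l - 1) ≤ 1 + (l - 1) + (l - 1) ^ 2 :=
    exp_le_quad (abs_le.2 ⟨by linarith, by linarith⟩)
  have e2 : Real.exp l ≤ 1 + l + l ^ 2 := exp_le_quad (abs_le.2 ⟨by linarith, by linarith⟩)
  have e3 : l * (1 - l) + 1 ≤ Real.exp (l * (1 - l)) := Real.add_one_le_exp _
  have hpos := Real.exp_pos (-l)
  have k1 : Real.exp (-1) = Real.exp (-l) * Real.exp (l - 1) := by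
    rw [← Real.exp_add]; congr 1; ring
  have k2 : (1 : ℝ) = Real.exp (-l) * Real.exp l := by
    rw [← Real.exp_add, neg_add_cancel, Real.exp_zero]
  have k3 : 1 + (Real.exp (-1) - 1) * l =
      Real.exp (-l) * (l * Real.exp (l - 1) + (1 - l) * Real.exp l) := by
    have h3 : Real.exp (-l) * (l * Real.exp (l - 1) + (1 - l) * Real.exp l) =
        (Real.exp (-l) * Real.exp (l - 1)) * l + (Real.exp (-l) * Real.exp l) * (1 - l) := by ring
    rw [h3, ← k1, ← k2]
    ring
  rw [k3, Real.exp_add]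
  refine mul_le_mul_of_nonneg_left ?_ hpos.le
  have s1 := mul_le_mul_of_nonneg_left e1 h0
  have s2 := mul_le_mul_of_nonneg_left e2 (sub_nonneg.2 h1)
  nlinarith [s1, s2, e3]

theorem exp_three_lt : Real.exp 3 ≤ 25 := by
  have h1 : Real.exp 3 = Real.exp 1 ^ 3 := by
    rw [← Real.exp_nat_mul]
    norm_num
  have h2 := Real.exp_one_lt_d9
  have h3 : Real.exp 1 ^ 3 ≤ 2.7182818286 ^ 3 := pow_le_pow_left₀ (Real.exp_pos 1).le h2.le 3
  rw [h1]
  refine h3.trans ?_
  norm_num

theorem DEV : S_DEV := by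
  intro hE hP hV M hM t u y hu0 huM hy
  haveI := hP hE M
  have hM0 : (0 : ℝ) < M := by exact_mod_cast hM
  set U : Set ℝ := arc (t / M) (u / M) with hU
  have hUm : MeasurableSet U := arc_measurable _ _
  have hUs : U ⊆ Set.Ico 0 1 := fun x hx => hx.1
  have hh0 : 0 ≤ u / M := div_nonneg hu0 hM0.le
  have hh1 : u / M ≤ 1 := (div_le_one hM0).2 huM
  obtain ⟨lam, hl, hls, hlv, hint⟩ := hE M hM U hUm hUs
  have hvol : (M : ℝ) * volume.real U = u := by
    rw [hU, arc_vol _ _ hh0 hh1]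
    field_simp
  rw [hvol] at hls
  have hVb : ∑ i, lam i * (1 - lam i) ≤ 3 + Real.log (1 + u) := by
    have h1 := hV M hM (t / M) (u / M) hh0 hh1
    have h2 : (M : ℝ) * (u / M) = u := by field_simp
    rw [h2] at h1
    rw [hlv]
    exact h1
  have h1u : 0 < 1 + u := by linarith
  -- the two exponential moments
  have hup : ∫ θ, Real.exp 1 ^ num θ U ∂(cue M) ≤ Real.exp u * (25 * (1 + u)) := by
    rw [(hint _ (Real.exp_pos 1)).2]
    have h1 : ∏ i, (1 + (Real.exp 1 - 1) * lam i) ≤ ∏ i, Real.exp (lam i + lam i * (1 - lam i)) := by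
      refine Finset.prod_le_prod (fun i _ => ?_) fun i _ => lam_up (hl i).1 (hl i).2
      have h2 : 1 < Real.exp 1 := Real.one_lt_exp_iff.2 one_pos
      have h3 := mul_nonneg (sub_nonneg.2 h2.le) (hl i).1
      linarith
    refine h1.trans ?_
    rw [← Real.exp_sum, Finset.sum_add_distrib, hls, Real.exp_add]
    refine mul_le_mul_of_nonneg_left ?_ (Real.exp_pos _).le
    refine (Real.exp_le_exp.2 hVb).trans ?_
    rw [Real.exp_add, Real.exp_log h1u]
    exact mul_le_mul_of_nonneg_right exp_three_lt h1u.le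
  have hdn : ∫ θ, Real.exp (-1) ^ num θ U ∂(cue M) ≤ Real.exp (-u) * (25 * (1 + u)) := by
    rw [(hint _ (Real.exp_pos (-1))).2]
    have h1 : ∏ i, (1 + (Real.exp (-1) - 1) * lam i) ≤ ∏ i, Real.exp (-lam i + lam i * (1 - lam i)) := by
      refine Finset.prod_le_prod (fun i _ => ?_) fun i _ => lam_dn (hl i).1 (hl i).2
      have h2 := Real.exp_pos (-1)
      nlinarith [(hl i).1, (hl i).2, mul_nonneg h2.le (hl i).1]
    refine h1.trans ?_
    rw [← Real.exp_sum, Finset.sum_add_distrib, Finset.sum_neg_distrib, hls, Real.exp_add]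
    refine mul_le_mul_of_nonneg_left ?_ (Real.exp_pos _).le
    refine (Real.exp_le_exp.2 hVb).trans ?_
    rw [Real.exp_add, Real.exp_log h1u]
    exact mul_le_mul_of_nonneg_right exp_three_lt h1u.le
  -- Markov
  have mk1 : Real.exp (u + y) * (cue M).real {θ | Real.exp (u + y) ≤ Real.exp 1 ^ num θ U} ≤
      ∫ θ, Real.exp 1 ^ num θ U ∂(cue M) :=
    mul_meas_ge_le_integral_of_nonneg (Eventually.of_forall fun θ => by positivity)
      (hint _ (Real.exp_pos 1)).1 _
  have mk2 : Real.exp (y - u) * (cue M).real {θ | Real.exp (y - u) ≤ Real.exp (-1) ^ num θ U} ≤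
      ∫ θ, Real.exp (-1) ^ num θ U ∂(cue M) :=
    mul_meas_ge_le_integral_of_nonneg (Eventually.of_forall fun θ => by positivity)
      (hint _ (Real.exp_pos (-1))).1 _
  have b1 : (cue M).real {θ | Real.exp (u + y) ≤ Real.exp 1 ^ num θ U} ≤
      25 * (1 + u) * Real.exp (-y) := by
    have h2 := mk1.trans hup
    have h3 : Real.exp u * (25 * (1 + u)) = Real.exp (u + y) * (25 * (1 + u) * Real.exp (-y)) := by
      have : Real.exp u = Real.exp (u + y) * Real.exp (-y) := by
        rw [← Real.exp_add]; congr 1; ring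
      rw [this]; ring
    rw [h3] at h2
    exact le_of_mul_le_mul_left h2 (Real.exp_pos _)
  have b2 : (cue M).real {θ | Real.exp (y - u) ≤ Real.exp (-1) ^ num θ U} ≤
      25 * (1 + u) * Real.exp (-y) := by
    have h2 := mk2.trans hdn
    have h3 : Real.exp (-u) * (25 * (1 + u)) = Real.exp (y - u) * (25 * (1 + u) * Real.exp (-y)) := by
      have : Real.exp (-u) = Real.exp (y - u) * Real.exp (-y) := by
        rw [← Real.exp_add]; congr 1; ring
      rw [this]; ring
    rw [h3] at h2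
    exact le_of_mul_le_mul_left h2 (Real.exp_pos _)
  have hsub : (cue M).real {θ | y ≤ |(cnt θ t u : ℝ) - u|} ≤
      (cue M).real ({θ | Real.exp (u + y) ≤ Real.exp 1 ^ num θ U} ∪
        {θ | Real.exp (y - u) ≤ Real.exp (-1) ^ num θ U}) := by
    unfold Measure.real
    refine ENNReal.toReal_mono (measure_ne_top _ _) (measure_mono_ae ?_)
    filter_upwards [cue_ae M] with θ hθ hy1
    have hy2 : y ≤ |(cnt θ t u : ℝ) - u| := hy1
    rw [cnt_eq_num hM θ hθ, ← hU] at hy2
    rcases le_abs.1 hy2 with h4 | h4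
    · left
      show Real.exp (u + y) ≤ Real.exp 1 ^ num θ U
      rw [← Real.exp_nat_mul, mul_one]
      exact Real.exp_le_exp.2 (by linarith)
    · right
      show Real.exp (y - u) ≤ Real.exp (-1) ^ num θ U
      rw [← Real.exp_nat_mul]
      exact Real.exp_le_exp.2 (by linarith)
  refine hsub.trans ((measureReal_union_le _ _).trans ?_)
  calc _ ≤ 25 * (1 + u) * Real.exp (-y) + 25 * (1 + u) * Real.exp (-y) := add_le_add b1 b2
    _ = 50 * (1 + u) * Real.exp (-y) := by ring

end Pool.Agent.N106.JG
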