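import Pool.Agent.N106.JG.DEV

/-!
JG/TAIL (project JG of helper805): tail of the block sums. By helper106.
-/

set_option autoImplicit false

open MeasureTheory Filter Topology

namespace Pool.Agent.N106.JG

open Pool.Agent.N805.JG

theorem cnt_measurable {M : ℕ} (t u : ℝ) : Measurable fun θ : Fin M → ℝ => (cnt θ t u : ℝ) := by
  have h1 : (fun θ : Fin M → ℝ => (cnt θ t u : ℝ)) =
      fun θ => ∑ i : Fin M, if Int.fract (θ i - t / M) * M < u then (1 : ℝ) else 0 := by
    funext θ
    unfold cnt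
    rw [Finset.card_filter]
    push_cast
    rfl
  rw [h1]
  refine Finset.measurable_sum _ fun i _ => Measurable.ite ?_ measurable_const measurable_const
  refine measurableSet_lt ?_ measurable_const
  exact (measurable_fract.comp ((measurable_pi_apply i).sub_const _)).mul_const _

theorem tele {M : ℕ} (θ : Fin M → ℝ) (a m : ℕ) :
    ∑ i ∈ Finset.range m, gap θ (a + i) = pt θ (a + m) - pt θ a := by
  induction m with
  | zero => simp
  | succ m ih =>
    rw [Finset.sum_range_succ, ih]
    unfold gap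
    rw [show a + (m + 1) = a + m + 1 from rfl]
    ring

theorem amgm {N c a : ℝ} (hc : 0 < c) (ha : a = 0 ∨ a = 1) :
    N * a ≤ (c * N ^ 2 + a / c) / 2 := by
  rcases ha with rfl | rfl
  · simp only [mul_zero, zero_div, add_zero]
    positivity
  · have h1 : 0 ≤ (c * N - 1) ^ 2 / c := by positivity
    have h2 : (c * N - 1) ^ 2 / c = c * N ^ 2 - 2 * N + 1 / c := by
      field_simp
      ring
    rw [h2] at h1
    linarith

theorem TAIL (hE : S_EIG) (hV : S_VAR) : S_TAIL := by
  classical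
  intro hMe hP hD hPa hDet M m y hm hmM hy
  haveI := hP hE M
  have hM : 1 ≤ M := by omega
  have hM0 : (0 : ℝ) < M := by exact_mod_cast hM
  have hm0 : (1 : ℝ) ≤ m := by exact_mod_cast hm
  have hmM' : (m : ℝ) ≤ M := by exact_mod_cast hmM.le
  have hy1 : (1 : ℝ) ≤ y := by exact_mod_cast hy
  set A : Set (ℕ → ℝ) := {x | (y : ℝ) < |∑ i ∈ Finset.range m, x i - m|} with hA
  have hAm : MeasurableSet A := by
    refine measurableSet_lt measurable_const ?_
    exact ((Finset.measurable_sum _ fun i _ => measurable_pi_apply i).sub_const _).abs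
  set B : ℕ → Set (Fin M → ℝ) := fun a => {θ | (y : ℝ) < |pt θ (a + m) - pt θ a - m|} with hB
  have hBm : ∀ a, MeasurableSet (B a) := fun a => by
    refine measurableSet_lt measurable_const ?_
    exact (((hMe M (a + m)).sub (hMe M a)).sub_const _).abs
  have hgm : ∀ a, Measurable fun (θ : Fin M → ℝ) (i : ℕ) => gap θ (a + i) := fun a => by
    rw [measurable_pi_iff]
    intro i
    exact (hMe M (a + i + 1)).sub (hMe M (a + i))
  have hpre : ∀ a, (fun (θ : Fin M → ℝ) (i : ℕ) => gap θ (a + i)) ⁻¹' A = B a := fun a => by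
    ext θ
    show (y : ℝ) < |∑ i ∈ Finset.range m, gap θ (a + i) - m| ↔
      (y : ℝ) < |pt θ (a + m) - pt θ a - m|
    rw [tele]
  have hQ : (Q M).real A = (M : ℝ)⁻¹ * ∑ a ∈ Finset.range M, (cue M).real (B a) := by
    unfold Q Measure.real
    rw [Measure.smul_apply, Measure.finsetSum_apply, smul_eq_mul, ENNReal.toReal_mul,
      ENNReal.toReal_inv, ENNReal.toReal_natCast, ENNReal.toReal_sum fun a _ => ?_]
    · congr 1
      refine Finset.sum_congr rfl fun a _ => ?_
      rw [Measure.map_apply (hgm a) hAm, hpre]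
    · rw [Measure.map_apply (hgm a) hAm, hpre]
      exact measure_ne_top _ _
  -- the two families of events
  set A1 : ℕ → Set (Fin M → ℝ) := fun t => {θ | (m : ℝ) + y - 1 ≤ M ∧
    (y : ℝ) ≤ |(cnt θ (t + 1) (m + y - 1) : ℝ) - (m + y - 1)|} with hA1
  set B1 : ℕ → Set (Fin M → ℝ) := fun t => {θ | (y : ℝ) ≤ m ∧
    (y : ℝ) ≤ |(cnt θ t (m - y + 1) : ℝ) - (m - y + 1)|} with hB1
  have hA1m : ∀ t, MeasurableSet (A1 t) := fun t => by
    have h1 : MeasurableSet {θ : Fin M → ℝ |
        (y : ℝ) ≤ |(cnt θ (t + 1) (m + y - 1) : ℝ) - (m + y - 1)|} :=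
      measurableSet_le measurable_const ((cnt_measurable _ _).sub_const _).abs
    have h2 : MeasurableSet {_θ : Fin M → ℝ | (m : ℝ) + y - 1 ≤ M} := MeasurableSet.const _
    exact h2.inter h1
  have hB1m : ∀ t, MeasurableSet (B1 t) := fun t => by
    have h1 : MeasurableSet {θ : Fin M → ℝ |
        (y : ℝ) ≤ |(cnt θ t (m - y + 1) : ℝ) - (m - y + 1)|} :=
      measurableSet_le measurable_const ((cnt_measurable _ _).sub_const _).abs
    have h2 : MeasurableSet {_θ : Fin M → ℝ | (y : ℝ) ≤ m} := MeasurableSet.const _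
    exact h2.inter h1
  have hexp := Real.exp_pos (-(y : ℝ))
  have hA1p : ∀ t, (cue M).real (A1 t) ≤ 50 * (m + y) * Real.exp (-y) := fun t => by
    by_cases h1 : (m : ℝ) + y - 1 ≤ M
    · have h2 := hD hE hP hV M hM (t + 1) (m + y - 1) y (by linarith) h1 (by linarith)
      have h3 : (1 : ℝ) + (m + y - 1) = m + y := by ring
      rw [h3] at h2
      exact (measureReal_mono fun θ hθ => hθ.2).trans h2
    · have h2 : A1 t = ∅ := by
        ext θ
        simp only [Set.mem_empty_iff_false, iff_false]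
        exact fun h3 => h1 h3.1
      rw [h2, measureReal_empty]
      positivity
  have hB1p : ∀ t, (cue M).real (B1 t) ≤ 50 * (m + y) * Real.exp (-y) := fun t => by
    by_cases h1 : (y : ℝ) ≤ m
    · have h2 := hD hE hP hV M hM t (m - y + 1) y (by linarith) (by linarith) (by linarith)
      have h3 : 50 * (1 + ((m : ℝ) - y + 1)) * Real.exp (-y) ≤ 50 * (m + y) * Real.exp (-y) :=
        mul_le_mul_of_nonneg_right (by linarith) hexp.le
      exact ((measureReal_mono fun θ hθ => hθ.2).trans h2).trans h3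
    · have h2 : B1 t = ∅ := by
        ext θ
        simp only [Set.mem_empty_iff_false, iff_false]
        exact fun h3 => h1 h3.1
      rw [h2, measureReal_empty]
      positivity
  -- the pairs
  set U : ℕ → Set ℝ := fun t => arc (t / M) (1 / M) with hU
  have hinv1 : (1 : ℝ) / M ≤ 1 := by
    rw [div_le_one hM0]
    exact_mod_cast hM
  have hpair : ∀ t, Integrable (fun θ : Fin M → ℝ => (num θ (U t) : ℝ) * (num θ (U t) - 1)) (cue M) ∧
      ∫ θ, (num θ (U t) : ℝ) * (num θ (U t) - 1) ∂(cue M) ≤ 1 := fun t => by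
    have h1 := hPa hE hP M hM (U t) (arc_measurable _ _) fun x hx => hx.1
    refine ⟨h1.1, h1.2.trans ?_⟩
    rw [arc_vol _ _ (by positivity) hinv1]
    have h2 : (M : ℝ) * (1 / M) = 1 := by field_simp
    rw [h2, one_pow]
  -- the majorant
  set c : ℝ := Real.exp (-(y : ℝ) / 2) with hc
  have hc0 : 0 < c := Real.exp_pos _
  have hcc : c * c = Real.exp (-(y : ℝ)) := by
    rw [hc, ← Real.exp_add]
    congr 1
    ring
  set f : ℕ → (Fin M → ℝ) → ℝ := fun t θ =>
    c * (1 + 2 * ((num θ (U t) : ℝ) * (num θ (U t) - 1))) +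
      (1 / (2 * c)) * ((A1 t).indicator (fun _ => (1 : ℝ)) θ + (B1 t).indicator (fun _ => (1 : ℝ)) θ)
    with hf
  have iA : ∀ t, Integrable ((A1 t).indicator fun _ => (1 : ℝ)) (cue M) := fun t =>
    (integrable_const _).indicator (hA1m t)
  have iB : ∀ t, Integrable ((B1 t).indicator fun _ => (1 : ℝ)) (cue M) := fun t =>
    (integrable_const _).indicator (hB1m t)
  have i1 : ∀ t, Integrable (fun θ : Fin M → ℝ =>
      c * (1 + 2 * ((num θ (U t) : ℝ) * (num θ (U t) - 1)))) (cue M) := fun t =>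
    ((integrable_const (1 : ℝ)).add ((hpair t).1.const_mul 2)).const_mul c
  have i2 : ∀ t, Integrable (fun θ : Fin M → ℝ =>
      (1 / (2 * c)) * ((A1 t).indicator (fun _ => (1 : ℝ)) θ +
        (B1 t).indicator (fun _ => (1 : ℝ)) θ)) (cue M) := fun t =>
    ((iA t).add (iB t)).const_mul _
  have hfi : ∀ t, Integrable (f t) (cue M) := fun t => (i1 t).add (i2 t)
  have hfint : ∀ t, ∫ θ, f t θ ∂(cue M) ≤ (3 + 50 * (m + y)) * c := fun t => by
    have e1 : ∫ θ, f t θ ∂(cue M) =
        (∫ θ, c * (1 + 2 * ((num θ (U t) : ℝ) * (num θ (U t) - 1))) ∂(cue M)) +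
        ∫ θ, (1 / (2 * c)) * ((A1 t).indicator (fun _ => (1 : ℝ)) θ +
          (B1 t).indicator (fun _ => (1 : ℝ)) θ) ∂(cue M) := integral_add (i1 t) (i2 t)
    have e2 : ∫ θ, c * (1 + 2 * ((num θ (U t) : ℝ) * (num θ (U t) - 1))) ∂(cue M) ≤ c * 3 := by
      rw [integral_const_mul]
      refine mul_le_mul_of_nonneg_left ?_ hc0.le
      rw [integral_add (integrable_const _) ((hpair t).1.const_mul 2), integral_const_mul]
      have h1 : ∫ _ : Fin M → ℝ, (1 : ℝ) ∂(cue M) = 1 := by simp
      rw [h1]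
      linarith [(hpair t).2]
    have e3 : ∫ θ, (1 / (2 * c)) * ((A1 t).indicator (fun _ => (1 : ℝ)) θ +
          (B1 t).indicator (fun _ => (1 : ℝ)) θ) ∂(cue M) ≤ 50 * (m + y) * c := by
      rw [integral_const_mul, integral_add (iA t) (iB t), integral_indicator_const _ (hA1m t),
        integral_indicator_const _ (hB1m t), smul_eq_mul, smul_eq_mul, mul_one, mul_one]
      have h1 : (cue M).real (A1 t) + (cue M).real (B1 t) ≤ 2 * (50 * (m + y) * (c * c)) := by
        rw [hcc]
        linarith [hA1p t, hB1p t]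
      calc 1 / (2 * c) * ((cue M).real (A1 t) + (cue M).real (B1 t)) ≤
            1 / (2 * c) * (2 * (50 * (m + y) * (c * c))) :=
            mul_le_mul_of_nonneg_left h1 (by positivity)
        _ = 50 * (m + y) * c := by field_simp
    rw [e1]
    calc _ ≤ c * 3 + 50 * (m + y) * c := add_le_add e2 e3
      _ = (3 + 50 * (m + y)) * c := by ring
  -- the comparison
  have hsum : ∑ a ∈ Finset.range M, (cue M).real (B a) =
      ∫ θ, ∑ a ∈ Finset.range M, (B a).indicator (fun _ => (1 : ℝ)) θ ∂(cue M) := by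
    rw [integral_finsetSum _ fun a _ => (integrable_const _).indicator (hBm a)]
    refine Finset.sum_congr rfl fun a _ => ?_
    rw [integral_indicator_const _ (hBm a), smul_eq_mul, mul_one]
  have hpt : ∀ᵐ θ ∂(cue M), ∑ a ∈ Finset.range M, (B a).indicator (fun _ => (1 : ℝ)) θ ≤
      ∑ t ∈ Finset.range M, f t θ := by
    filter_upwards [cue_ae M] with θ hθ
    have h1 : ∑ a ∈ Finset.range M, (B a).indicator (fun _ => (1 : ℝ)) θ =
        (((Finset.range M).filter fun a => (y : ℝ) < |pt θ (a + m) - pt θ a - m|).card : ℝ) := by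
      rw [Finset.card_filter]
      push_cast
      refine Finset.sum_congr rfl fun a _ => ?_
      rw [Set.indicator_apply]
      rfl
    rw [h1]
    refine (hDet M m y θ hθ hm hmM hy).trans (Finset.sum_le_sum fun t _ => ?_)
    have h2 : (cnt θ t 1 : ℝ) = (num θ (U t) : ℝ) := by
      rw [cnt_eq_num hM θ hθ]
    rw [h2]
    set N : ℝ := (num θ (U t) : ℝ) with hN
    have hia : ∀ (s : Set (Fin M → ℝ)), s.indicator (fun _ => (1 : ℝ)) θ = 0 ∨
        s.indicator (fun _ => (1 : ℝ)) θ = 1 := fun s => by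
      rw [Set.indicator_apply]
      split_ifs
      · exact Or.inr rfl
      · exact Or.inl rfl
    have h3 := amgm (N := N) hc0 (hia (A1 t))
    have h4 := amgm (N := N) hc0 (hia (B1 t))
    have h5 : (if (m : ℝ) + y - 1 ≤ M ∧ (y : ℝ) ≤ |(cnt θ (t + 1) (m + y - 1) : ℝ) - (m + y - 1)|
        then (1 : ℝ) else 0) = (A1 t).indicator (fun _ => (1 : ℝ)) θ := by
      rw [Set.indicator_apply]
      rfl
    have h6 : (if (y : ℝ) ≤ m ∧ (y : ℝ) ≤ |(cnt θ t (m - y + 1) : ℝ) - (m - y + 1)|
        then (1 : ℝ) else 0) = (B1 t).indicator (fun _ => (1 : ℝ)) θ := by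
      rw [Set.indicator_apply]
      rfl
    rw [h5, h6]
    set α := (A1 t).indicator (fun _ => (1 : ℝ)) θ with hα
    set β := (B1 t).indicator (fun _ => (1 : ℝ)) θ with hβ
    show N * (α + β) ≤ c * (1 + 2 * (N * (N - 1))) + (1 / (2 * c)) * (α + β)
    have h7 : (1 / (2 * c)) * (α + β) = α / c / 2 + β / c / 2 := by
      field_simp
    have h8 : c * N ^ 2 ≤ c * (1 + 2 * (N * (N - 1))) := by
      refine mul_le_mul_of_nonneg_left ?_ hc0.le
      nlinarith [sq_nonneg (N - 1)]
    rw [h7]
    linarith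
  have hfinal : ∑ a ∈ Finset.range M, (cue M).real (B a) ≤ M * ((3 + 50 * (m + y)) * c) := by
    rw [hsum]
    refine (integral_mono_ae (integrable_finsetSum _ fun a _ =>
      (integrable_const _).indicator (hBm a)) (integrable_finsetSum _ fun t _ => hfi t) hpt).trans ?_
    rw [integral_finsetSum _ fun t _ => hfi t]
    refine (Finset.sum_le_sum fun t _ => hfint t).trans ?_
    rw [Finset.sum_const, Finset.card_range, nsmul_eq_mul]
  rw [hQ]
  calc (M : ℝ)⁻¹ * ∑ a ∈ Finset.range M, (cue M).real (B a) ≤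
        (M : ℝ)⁻¹ * (M * ((3 + 50 * (m + y)) * c)) :=
        mul_le_mul_of_nonneg_left hfinal (by positivity)
    _ = (3 + 50 * (m + y)) * c := by field_simp
    _ ≤ 100 * (1 + m + y) * c := mul_le_mul_of_nonneg_right (by linarith) hc0.le

end Pool.Agent.N106.JG
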